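import Pool.Agent.X51.KE.Stm

set_option autoImplicit false
open Finset

namespace Pool.Agent.X193.KE
open Pool.Agent.X51.KE

lemma orth (n : ℕ) [NeZero n] (a : ZMod n) :
    ∑ i : ZMod n, (ZMod.stdAddChar (a * i) : ℂ) = if a = 0 then (n : ℂ) else 0 := by
  have h := AddChar.sum_mulShift (R := ZMod n) (R' := ℂ) (ψ := ZMod.stdAddChar) a
    (ZMod.isPrimitive_stdAddChar n)
  have h2 : ∑ i : ZMod n, (ZMod.stdAddChar (a * i) : ℂ) = ∑ i : ZMod n, (ZMod.stdAddChar (i * a) : ℂ) :=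
    sum_congr rfl fun i _ => by rw [mul_comm]
  rw [h2, h, ZMod.card]
  split_ifs <;> simp

def cc (K : ℕ) (l : Fin (K + 1)) : ℕ := if l.val < K then l.val + 1 else K + 2

lemma fr_eq (n K : ℕ) (l : Fin (K + 1)) : fr n K l = (cc K l : ZMod n) := by
  unfold fr cc
  split_ifs <;> rfl

lemma cc_pos (K : ℕ) (l : Fin (K + 1)) : 0 < cc K l := by
  unfold cc
  split_ifs <;> omega

lemma cc_le (K : ℕ) (l : Fin (K + 1)) : cc K l ≤ K + 2 := by
  unfold cc
  split_ifs <;> omega

lemma cc_ne (K : ℕ) (l : Fin (K + 1)) : cc K l ≠ K + 1 := by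
  unfold cc
  split_ifs <;> omega

lemma cc_inj (K : ℕ) (l m : Fin (K + 1)) (h : cc K l = cc K m) : l = m := by
  unfold cc at h
  have h1 := l.2
  have h2 := m.2
  apply Fin.ext
  split_ifs at h <;> omega

lemma cast_ne_zero {n a : ℕ} (h0 : 0 < a) (h : a < n) : (a : ZMod n) ≠ 0 := by
  rw [Ne, ZMod.natCast_eq_zero_iff]
  intro hd
  exact absurd (Nat.le_of_dvd h0 hd) (by omega)

lemma cast_sub_ne {n a b : ℕ} (hne : a ≠ b) (ha : a < n) (hb : b < n) :
    (a : ZMod n) - b ≠ 0 := by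
  rw [sub_ne_zero, Ne, ZMod.natCast_eq_natCast_iff', Nat.mod_eq_of_lt ha, Nat.mod_eq_of_lt hb]
  exact hne

lemma e_mul {n : ℕ} [NeZero n] (a b i : ZMod n) :
    (ZMod.stdAddChar (-(b * i)) : ℂ) * ZMod.stdAddChar (a * i) = ZMod.stdAddChar ((a - b) * i) := by
  rw [← AddChar.map_add_eq_mul]
  congr 1
  ring

lemma e_norm {n : ℕ} [NeZero n] (x : ZMod n) : ‖(ZMod.stdAddChar x : ℂ)‖ = 1 :=
  AddChar.norm_apply _ _

lemma e_conj {n : ℕ} [NeZero n] (x : ZMod n) :
    starRingEnd ℂ (ZMod.stdAddChar x : ℂ) = ZMod.stdAddChar (-x) :=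
  (AddChar.map_neg_eq_conj _ _).symm

/-- the key sum -/
lemma key (n K : ℕ) [NeZero n] (hn : 2 * K + 7 ≤ n) (w : Fin (K + 1) → ℂ) (s : ℂ)
    (m : Fin (K + 1)) :
    ∑ i : ZMod n, (ZMod.stdAddChar (-(fr n K m * i)) : ℂ) *
      ((∑ l, starRingEnd ℂ (w l) * ZMod.stdAddChar (fr n K l * i)) +
       (∑ l, w l * ZMod.stdAddChar ((-fr n K l) * i)) +
       s * (ZMod.stdAddChar (((K + 1 : ℕ) : ZMod n) * i) +
        ZMod.stdAddChar ((-((K + 1 : ℕ) : ZMod n)) * i))) = n * starRingEnd ℂ (w m) := by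
  have h1 : ∀ i : ZMod n, (ZMod.stdAddChar (-(fr n K m * i)) : ℂ) *
      ((∑ l, starRingEnd ℂ (w l) * ZMod.stdAddChar (fr n K l * i)) +
       (∑ l, w l * ZMod.stdAddChar ((-fr n K l) * i)) +
       s * (ZMod.stdAddChar (((K + 1 : ℕ) : ZMod n) * i) +
        ZMod.stdAddChar ((-((K + 1 : ℕ) : ZMod n)) * i))) =
      (∑ l, starRingEnd ℂ (w l) * ZMod.stdAddChar ((fr n K l - fr n K m) * i)) +
      (∑ l, w l * ZMod.stdAddChar ((-fr n K l - fr n K m) * i)) +
      s * ZMod.stdAddChar ((((K + 1 : ℕ) : ZMod n) - fr n K m) * i) +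
      s * ZMod.stdAddChar ((-((K + 1 : ℕ) : ZMod n) - fr n K m) * i) := by
    intro i
    rw [mul_add, mul_add, mul_sum, mul_sum]
    have a1 : ∀ l, (ZMod.stdAddChar (-(fr n K m * i)) : ℂ) * (starRingEnd ℂ (w l) *
        ZMod.stdAddChar (fr n K l * i)) = starRingEnd ℂ (w l) *
        ZMod.stdAddChar ((fr n K l - fr n K m) * i) := by
      intro l
      rw [← e_mul]
      ring
    have a2 : ∀ l, (ZMod.stdAddChar (-(fr n K m * i)) : ℂ) * (w l *
        ZMod.stdAddChar ((-fr n K l) * i)) = w l *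
        ZMod.stdAddChar ((-fr n K l - fr n K m) * i) := by
      intro l
      rw [← e_mul]
      ring
    simp only [a1, a2]
    rw [← e_mul, ← e_mul]
    ring
  simp only [h1]
  rw [sum_add_distrib, sum_add_distrib, sum_add_distrib, sum_comm, sum_comm (t := univ) (s := univ)
    (f := fun (i : ZMod n) (l : Fin (K + 1)) => w l * (ZMod.stdAddChar ((-fr n K l - fr n K m) * i) : ℂ))]
  simp only [← mul_sum, orth]
  have hm := cc_le K m
  have hm0 := cc_pos K m
  have b1 : ∀ l, (if fr n K l - fr n K m = 0 then (n : ℂ) else 0) = if l = m then (n : ℂ) else 0 := by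
    intro l
    by_cases h : l = m
    · subst h
      simp
    · rw [if_neg h, if_neg]
      rw [fr_eq, fr_eq]
      exact cast_sub_ne (fun e => h (cc_inj K l m e)) (by have := cc_le K l; omega) (by omega)
  have b2 : ∀ l, (if -fr n K l - fr n K m = 0 then (n : ℂ) else 0) = 0 := by
    intro l
    rw [if_neg]
    intro h
    have h2 : ((cc K l + cc K m : ℕ) : ZMod n) = 0 := by
      push_cast
      rw [← fr_eq, ← fr_eq]
      linear_combination -h
    exact cast_ne_zero (by omega) (by have := cc_le K l; omega) h2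
  have b3 : ((K + 1 : ℕ) : ZMod n) - fr n K m ≠ 0 := by
    rw [fr_eq]
    exact cast_sub_ne (fun e => cc_ne K m e.symm) (by omega) (by omega)
  have b4 : -((K + 1 : ℕ) : ZMod n) - fr n K m ≠ 0 := by
    intro h
    have h2 : ((K + 1 + cc K m : ℕ) : ZMod n) = 0 := by
      push_cast
      rw [← fr_eq]
      push_cast at h
      linear_combination -h
    exact cast_ne_zero (by omega) (by omega) h2
  simp only [b1, b2, if_neg b3, if_neg b4]
  simp [mul_comm]

theorem t_SPAN : S_SPAN := by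
  intro n K _ hK hodd hn
  have hK0 : (0 : ℝ) < (K : ℝ) + 1 := by positivity
  have hn0 : 0 < n := by omega
  have hnR : (0 : ℝ) < n := by exact_mod_cast hn0
  refine ⟨1 / (4 * ((K : ℝ) + 1)), by positivity, ?_⟩
  intro X hX ε hε w t b h
  set δ : ℝ := 1 / (4 * ((K : ℝ) + 1)) with hδ
  have hδ0 : 0 < δ := by positivity
  set S : ℝ := ∑ l, ‖w l‖ with hS
  have hS0 : 0 ≤ S := sum_nonneg fun _ _ => norm_nonneg _
  let η : ZMod n → ℝ := fun i => (∑ l, starRingEnd ℂ (w l) * (X i l - ZMod.stdAddChar (fr n K l * i))).re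
  have hη : ∀ i, |η i| ≤ δ * S := by
    intro i
    refine (Complex.abs_re_le_norm _).trans ((norm_sum_le _ _).trans ?_)
    rw [hS, mul_sum]
    refine sum_le_sum fun l _ => ?_
    rw [norm_mul, RCLike.norm_conj, mul_comm]
    exact mul_le_mul_of_nonneg_right (hX i l).le (norm_nonneg _)
  have hg : ∀ i : ZMod n, ((∑ l, starRingEnd ℂ (w l) * (ZMod.stdAddChar (fr n K l * i) : ℂ)) +
       (∑ l, w l * (ZMod.stdAddChar ((-fr n K l) * i) : ℂ)) +
       ((t * ε : ℝ) : ℂ) * ((ZMod.stdAddChar (((K + 1 : ℕ) : ZMod n) * i) : ℂ) +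
        ZMod.stdAddChar ((-((K + 1 : ℕ) : ZMod n)) * i))) = ((2 * (b - η i) : ℝ) : ℂ) := by
    intro i
    have c1 : (∑ l, w l * (ZMod.stdAddChar ((-fr n K l) * i) : ℂ)) =
        starRingEnd ℂ (∑ l, starRingEnd ℂ (w l) * (ZMod.stdAddChar (fr n K l * i) : ℂ)) := by
      rw [map_sum]
      refine sum_congr rfl fun l _ => ?_
      rw [map_mul (starRingEnd ℂ), Complex.conj_conj, e_conj, neg_mul]
    have c2 : (ZMod.stdAddChar ((-((K + 1 : ℕ) : ZMod n)) * i) : ℂ) =
        starRingEnd ℂ (ZMod.stdAddChar (((K + 1 : ℕ) : ZMod n) * i) : ℂ) := by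
      rw [e_conj, neg_mul]
    rw [c1, c2, Complex.add_conj, Complex.add_conj]
    have c3 := h i
    have c4 : η i = (∑ l, starRingEnd ℂ (w l) * X i l).re -
        (∑ l, starRingEnd ℂ (w l) * (ZMod.stdAddChar (fr n K l * i) : ℂ)).re := by
      simp only [η, mul_sub, sum_sub_distrib, Complex.sub_re]
    rw [← Complex.ofReal_mul, ← Complex.ofReal_add]
    congr 1
    rw [c4, ← c3]
    ring
  have hw : ∀ m, ‖w m‖ ≤ 2 * (δ * S) := by
    intro m
    have k1 := key n K hn w ((t * ε : ℝ) : ℂ) m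
    simp only [hg] at k1
    have k2 : ∑ i : ZMod n, (ZMod.stdAddChar (-(fr n K m * i)) : ℂ) * ((2 * (b - η i) : ℝ) : ℂ)
        = -∑ i : ZMod n, (ZMod.stdAddChar (-(fr n K m * i)) : ℂ) * ((2 * η i : ℝ) : ℂ) := by
      have k3 : ∑ i : ZMod n, (ZMod.stdAddChar (-(fr n K m * i)) : ℂ) * ((2 * b : ℝ) : ℂ) = 0 := by
        rw [← sum_mul]
        have k4 := orth n (-fr n K m)
        rw [if_neg (by
          rw [neg_eq_zero, fr_eq]
          exact cast_ne_zero (cc_pos K m) (by have := cc_le K m; omega))] at k4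
        simp only [neg_mul] at k4
        rw [k4, zero_mul]
      rw [← sum_neg_distrib, ← sub_eq_zero, ← sum_sub_distrib, ← k3]
      refine sum_congr rfl fun i _ => ?_
      push_cast
      ring
    rw [k2] at k1
    have k5 : (n : ℝ) * ‖w m‖ ≤ n * (2 * (δ * S)) := by
      have k6 : (n : ℝ) * ‖w m‖ = ‖(n : ℂ) * starRingEnd ℂ (w m)‖ := by
        rw [norm_mul, RCLike.norm_conj, Complex.norm_natCast]
      rw [k6, ← k1, norm_neg]
      refine (norm_sum_le _ _).trans ?_
      have k7 : ∀ i ∈ (univ : Finset (ZMod n)), ‖(ZMod.stdAddChar (-(fr n K m * i)) : ℂ) *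
          ((2 * η i : ℝ) : ℂ)‖ ≤ 2 * (δ * S) := by
        intro i _
        rw [norm_mul, e_norm, one_mul, Complex.norm_real, Real.norm_eq_abs, abs_mul,
          abs_of_pos (by norm_num : (0 : ℝ) < 2)]
        exact mul_le_mul_of_nonneg_left (hη i) (by norm_num)
      refine (sum_le_sum k7).trans (le_of_eq ?_)
      rw [sum_const, card_univ, ZMod.card, nsmul_eq_mul]
    exact le_of_mul_le_mul_left k5 hnR
  have hSle : S ≤ ((K : ℝ) + 1) * (2 * (δ * S)) := by
    rw [hS]
    refine (sum_le_sum fun m _ => hw m).trans (le_of_eq ?_)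
    rw [sum_const, card_univ, Fintype.card_fin, nsmul_eq_mul]
    push_cast
    rfl
  have hSz : S = 0 := by
    have e1 : ((K : ℝ) + 1) * (2 * (δ * S)) = S / 2 := by
      rw [hδ]
      field_simp
      ring
    rw [e1] at hSle
    linarith
  have hw0 : w = 0 := by
    funext l
    have := (sum_eq_zero_iff_of_nonneg (fun l _ => norm_nonneg (w l))).1 hSz l (mem_univ l)
    exact norm_eq_zero.1 this
  refine ⟨hw0, ?_⟩
  subst hw0
  simp only [Pi.zero_apply, map_zero, zero_mul, sum_const_zero, Complex.zero_re, zero_add] at h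
  have hsum : ∑ i : ZMod n, t * (ε * (ZMod.stdAddChar (((K + 1 : ℕ) : ZMod n) * i) : ℂ).re) = n * b := by
    rw [sum_congr rfl fun i _ => h i, sum_const, card_univ, ZMod.card, nsmul_eq_mul]
  have hz : ∑ i : ZMod n, (ZMod.stdAddChar (((K + 1 : ℕ) : ZMod n) * i) : ℂ).re = 0 := by
    have := congrArg Complex.re (orth n ((K + 1 : ℕ) : ZMod n))
    rw [if_neg (cast_ne_zero (by omega) (by omega)), Complex.re_sum] at this
    simpa using this
  have hb : b = 0 := by
    rw [← mul_sum, ← mul_sum, hz, mul_zero, mul_zero] at hsum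
    have : (n : ℝ) * b = 0 := hsum.symm
    rcases mul_eq_zero.1 this with h' | h'
    · exact absurd h' hnR.ne'
    · exact h'
  have h0 := h 0
  rw [mul_zero, AddChar.map_zero_eq_one, Complex.one_re, mul_one, hb] at h0
  rcases mul_eq_zero.1 h0 with h' | h'
  · exact h'
  · exact absurd h' hε

end Pool.Agent.X193.KE
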