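import Pool.Agent.X51.KE.Stm2
import Pool.Agent.X193.KE.Span

set_option autoImplicit false
open Finset

namespace Pool.Agent.X193.KE
open Pool.Agent.X51.KE

/-- the key sum -/
lemma keyG (n L : ℕ) [NeZero n] (F : Fin L → ZMod n) (g : ZMod n) (hF : Function.Injective F)
    (hFF : ∀ l l', F l ≠ - F l') (hg1 : ∀ l, F l ≠ g) (hg2 : ∀ l, F l ≠ -g)
    (w : Fin L → ℂ) (s : ℂ) (m : Fin L) :
    ∑ i : ZMod n, (ZMod.stdAddChar (-(F m * i)) : ℂ) *
      ((∑ l, starRingEnd ℂ (w l) * ZMod.stdAddChar (F l * i)) +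
       (∑ l, w l * ZMod.stdAddChar ((-F l) * i)) +
       s * (ZMod.stdAddChar (g * i) +
        ZMod.stdAddChar ((-g) * i))) = n * starRingEnd ℂ (w m) := by
  have h1 : ∀ i : ZMod n, (ZMod.stdAddChar (-(F m * i)) : ℂ) *
      ((∑ l, starRingEnd ℂ (w l) * ZMod.stdAddChar (F l * i)) +
       (∑ l, w l * ZMod.stdAddChar ((-F l) * i)) +
       s * (ZMod.stdAddChar (g * i) +
        ZMod.stdAddChar ((-g) * i))) =
      (∑ l, starRingEnd ℂ (w l) * ZMod.stdAddChar ((F l - F m) * i)) +
      (∑ l, w l * ZMod.stdAddChar ((-F l - F m) * i)) +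
      s * ZMod.stdAddChar ((g - F m) * i) +
      s * ZMod.stdAddChar ((-g - F m) * i) := by
    intro i
    rw [mul_add, mul_add, mul_sum, mul_sum]
    have a1 : ∀ l, (ZMod.stdAddChar (-(F m * i)) : ℂ) * (starRingEnd ℂ (w l) *
        ZMod.stdAddChar (F l * i)) = starRingEnd ℂ (w l) *
        ZMod.stdAddChar ((F l - F m) * i) := by
      intro l
      rw [← e_mul]
      ring
    have a2 : ∀ l, (ZMod.stdAddChar (-(F m * i)) : ℂ) * (w l *
        ZMod.stdAddChar ((-F l) * i)) = w l *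
        ZMod.stdAddChar ((-F l - F m) * i) := by
      intro l
      rw [← e_mul]
      ring
    simp only [a1, a2]
    rw [← e_mul, ← e_mul]
    ring
  simp only [h1]
  rw [sum_add_distrib, sum_add_distrib, sum_add_distrib, sum_comm, sum_comm (t := univ) (s := univ)
    (f := fun (i : ZMod n) (l : Fin L) => w l * (ZMod.stdAddChar ((-F l - F m) * i) : ℂ))]
  simp only [← mul_sum, orth]
  have b1 : ∀ l, (if F l - F m = 0 then (n : ℂ) else 0) = if l = m then (n : ℂ) else 0 := by
    intro l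
    by_cases h : l = m
    · subst h
      simp
    · rw [if_neg h, if_neg]
      rw [sub_eq_zero]
      exact fun e => h (hF e)
  have b2 : ∀ l, (if -F l - F m = 0 then (n : ℂ) else 0) = 0 := by
    intro l
    rw [if_neg]
    intro h
    exact hFF m l (by linear_combination -h)
  have b3 : g - F m ≠ 0 := by
    rw [sub_ne_zero]
    exact (hg1 m).symm
  have b4 : -g - F m ≠ 0 := by
    rw [sub_ne_zero]
    exact (hg2 m).symm
  simp only [b1, b2, if_neg b3, if_neg b4]
  simp [mul_comm]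

theorem t_SPANG : S_SPANG := by
  intro n L _ F g hF hF0 hFF hg0 hg1 hg2
  have hK0 : (0 : ℝ) < (L : ℝ) + 1 := by positivity
  have hn0 : 0 < n := Nat.pos_of_ne_zero (NeZero.ne n)
  have hnR : (0 : ℝ) < n := by exact_mod_cast hn0
  refine ⟨1 / (4 * ((L : ℝ) + 1)), by positivity, ?_⟩
  intro X hX ε hε w t b h
  set δ : ℝ := 1 / (4 * ((L : ℝ) + 1)) with hδ
  have hδ0 : 0 < δ := by positivity
  set S : ℝ := ∑ l, ‖w l‖ with hS
  have hS0 : 0 ≤ S := sum_nonneg fun _ _ => norm_nonneg _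
  let η : ZMod n → ℝ := fun i => (∑ l, starRingEnd ℂ (w l) * (X i l - ZMod.stdAddChar (F l * i))).re
  have hη : ∀ i, |η i| ≤ δ * S := by
    intro i
    refine (Complex.abs_re_le_norm _).trans ((norm_sum_le _ _).trans ?_)
    rw [hS, mul_sum]
    refine sum_le_sum fun l _ => ?_
    rw [norm_mul, RCLike.norm_conj, mul_comm]
    exact mul_le_mul_of_nonneg_right (hX i l).le (norm_nonneg _)
  have hg : ∀ i : ZMod n, ((∑ l, starRingEnd ℂ (w l) * (ZMod.stdAddChar (F l * i) : ℂ)) +
       (∑ l, w l * (ZMod.stdAddChar ((-F l) * i) : ℂ)) +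
       ((t * ε : ℝ) : ℂ) * ((ZMod.stdAddChar (g * i) : ℂ) +
        ZMod.stdAddChar ((-g) * i))) = ((2 * (b - η i) : ℝ) : ℂ) := by
    intro i
    have c1 : (∑ l, w l * (ZMod.stdAddChar ((-F l) * i) : ℂ)) =
        starRingEnd ℂ (∑ l, starRingEnd ℂ (w l) * (ZMod.stdAddChar (F l * i) : ℂ)) := by
      rw [map_sum]
      refine sum_congr rfl fun l _ => ?_
      rw [map_mul (starRingEnd ℂ), Complex.conj_conj, e_conj, neg_mul]
    have c2 : (ZMod.stdAddChar ((-g) * i) : ℂ) =
        starRingEnd ℂ (ZMod.stdAddChar (g * i) : ℂ) := by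
      rw [e_conj, neg_mul]
    rw [c1, c2, Complex.add_conj, Complex.add_conj]
    have c3 := h i
    have c4 : η i = (∑ l, starRingEnd ℂ (w l) * X i l).re -
        (∑ l, starRingEnd ℂ (w l) * (ZMod.stdAddChar (F l * i) : ℂ)).re := by
      simp only [η, mul_sub, sum_sub_distrib, Complex.sub_re]
    rw [← Complex.ofReal_mul, ← Complex.ofReal_add]
    congr 1
    rw [c4, ← c3]
    ring
  have hw : ∀ m, ‖w m‖ ≤ 2 * (δ * S) := by
    intro m
    have k1 := keyG n L F g hF hFF hg1 hg2 w ((t * ε : ℝ) : ℂ) m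
    simp only [hg] at k1
    have k2 : ∑ i : ZMod n, (ZMod.stdAddChar (-(F m * i)) : ℂ) * ((2 * (b - η i) : ℝ) : ℂ)
        = -∑ i : ZMod n, (ZMod.stdAddChar (-(F m * i)) : ℂ) * ((2 * η i : ℝ) : ℂ) := by
      have k3 : ∑ i : ZMod n, (ZMod.stdAddChar (-(F m * i)) : ℂ) * ((2 * b : ℝ) : ℂ) = 0 := by
        rw [← sum_mul]
        have k4 := orth n (-F m)
        rw [if_neg (by
          rw [neg_eq_zero]
          exact hF0 m)] at k4
        simp only [neg_mul] at k4
        rw [k4, zero_mul]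
      rw [← sum_neg_distrib, ← sub_eq_zero, ← sum_sub_distrib, ← k3]
      refine sum_congr rfl fun i _ => ?_
      push_cast
      ring
    rw [k2] at k1
    have k5 : (n : ℝ) * ‖w m‖ ≤ n * (2 * (δ * S)) := by
      have k6 : (n : ℝ) * ‖w m‖ = ‖(n : ℂ) * starRingEnd ℂ (w m)‖ := by
        rw [norm_mul, RCLike.norm_conj, Complex.norm_natCast]
      rw [k6, ← k1, norm_neg]
      refine (norm_sum_le _ _).trans ?_
      have k7 : ∀ i ∈ (univ : Finset (ZMod n)), ‖(ZMod.stdAddChar (-(F m * i)) : ℂ) *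
          ((2 * η i : ℝ) : ℂ)‖ ≤ 2 * (δ * S) := by
        intro i _
        rw [norm_mul, e_norm, one_mul, Complex.norm_real, Real.norm_eq_abs, abs_mul,
          abs_of_pos (by norm_num : (0 : ℝ) < 2)]
        exact mul_le_mul_of_nonneg_left (hη i) (by norm_num)
      refine (sum_le_sum k7).trans (le_of_eq ?_)
      rw [sum_const, card_univ, ZMod.card, nsmul_eq_mul]
    exact le_of_mul_le_mul_left k5 hnR
  have hSle : S ≤ ((L : ℝ) + 1) * (2 * (δ * S)) := by
    have e0 : S ≤ (L : ℝ) * (2 * (δ * S)) := by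
      conv_lhs => rw [hS]
      refine (sum_le_sum fun m _ => hw m).trans (le_of_eq ?_)
      rw [sum_const, card_univ, Fintype.card_fin, nsmul_eq_mul]
    have e1 : 0 ≤ 2 * (δ * S) := by positivity
    linarith
  have hSz : S = 0 := by
    have e1 : ((L : ℝ) + 1) * (2 * (δ * S)) = S / 2 := by
      rw [hδ]
      field_simp
      ring
    rw [e1] at hSle
    linarith
  have hw0 : w = 0 := by
    funext l
    have := (sum_eq_zero_iff_of_nonneg (fun l _ => norm_nonneg (w l))).1 hSz l (mem_univ l)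
    exact norm_eq_zero.1 this
  refine ⟨hw0, ?_⟩
  subst hw0
  simp only [Pi.zero_apply, map_zero, zero_mul, sum_const_zero, Complex.zero_re, zero_add] at h
  have hsum : ∑ i : ZMod n, t * (ε * (ZMod.stdAddChar (g * i) : ℂ).re) = n * b := by
    rw [sum_congr rfl fun i _ => h i, sum_const, card_univ, ZMod.card, nsmul_eq_mul]
  have hz : ∑ i : ZMod n, (ZMod.stdAddChar (g * i) : ℂ).re = 0 := by
    have := congrArg Complex.re (orth n g)
    rw [if_neg hg0, Complex.re_sum] at this
    simpa using this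
  have hb : b = 0 := by
    rw [← mul_sum, ← mul_sum, hz, mul_zero, mul_zero] at hsum
    have : (n : ℝ) * b = 0 := hsum.symm
    rcases mul_eq_zero.1 this with h' | h'
    · exact absurd h' hnR.ne'
    · exact h'
  have h0 := h 0
  rw [mul_zero, AddChar.map_zero_eq_one, Complex.one_re, mul_one, hb] at h0
  rcases mul_eq_zero.1 h0 with h' | h'
  · exact h'
  · exact absurd h' hε

end Pool.Agent.X193.KE
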